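import Pool.Agent.Q84.StepU

/-!
# MP_d6da6d: for every `α > 0` the indicator of `[-1/2, 1/2]` is beaten by a real, even,
nowhere vanishing step function on `[-1/2, 1/2]`.
-/

set_option autoImplicit false

namespace Pool.Agent.Results.MP_d6da6d_an.StepBeatsIndicator

open MeasureTheory Set FourierTransform Pool.Agent.Q84.StepU
open scoped ENNReal

/-- `Φ_α(u) = ‖ξ û(ξ)‖_∞^α · ‖|x|^α u‖_1 / ‖u‖_1^{α+1}`, with
`û(ξ) = ∫ u(x) e^{-2πiξx} dx` -/
noncomputable def Phi (α : ℝ) (u : ℝ → ℂ) : ℝ≥0∞ :=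
  (eLpNorm (fun ξ : ℝ => (ξ : ℂ) * 𝓕 u ξ) ∞ volume) ^ α *
    (∫⁻ x : ℝ, ‖((|x| ^ α : ℝ) : ℂ) * u x‖ₑ) / (∫⁻ x : ℝ, ‖u x‖ₑ) ^ (α + 1)

/-- the indicator function of `[-1/2, 1/2]` -/
noncomputable def chi : ℝ → ℂ := (Icc (-1 / 2 : ℝ) (1 / 2)).indicator fun _ => 1

lemma chi_eq : chi = fun x => (ind (1 / 2) x : ℂ) := by
  funext x
  unfold chi
  rw [ind_eq]
  have e : (-1 / 2 : ℝ) = -(1 / 2) := by norm_num
  rw [e]
  by_cases hx : x ∈ Icc (-(1 / 2) : ℝ) (1 / 2)
  · rw [indicator_of_mem hx, indicator_of_mem hx]; simp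
  · rw [indicator_of_notMem hx, indicator_of_notMem hx]; simp

lemma lint_real (f : ℝ → ℝ) (hf : Integrable f) :
    ∫⁻ x, ‖(f x : ℂ)‖ₑ = ENNReal.ofReal (∫ x, |f x|) := by
  rw [ofReal_integral_eq_lintegral_ofReal hf.abs (Filter.Eventually.of_forall fun x => abs_nonneg _)]
  apply lintegral_congr
  intro x
  rw [← ofReal_norm, Complex.norm_real, Real.norm_eq_abs]

lemma continuous_fourier {f : ℝ → ℂ} (hf : Integrable f) : Continuous (𝓕 f) :=
  VectorFourier.fourierIntegral_continuous Real.continuous_fourierChar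
      (innerSL ℝ).continuous₂ hf

lemma Phi_chi (α : ℝ) (hα : 0 < α) :
    ENNReal.ofReal (1 / Real.pi) ^ α * ENNReal.ofReal (2 * (1 / 2) ^ (α + 1) / (α + 1)) ≤
      Phi α chi := by
  unfold Phi
  have hint : Integrable (fun x => (ind (1 / 2) x : ℂ)) := (ind_integrable _).ofReal
  have h1 : ∫⁻ x : ℝ, ‖chi x‖ₑ = 1 := by
    rw [chi_eq, lint_real _ (ind_integrable _)]
    have : ∫ x, |ind (1 / 2) x| = 1 := by
      have e : (fun x => |ind (1 / 2) x|) = ind (1 / 2) := by
        funext x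
        exact abs_of_nonneg (ind_nonneg _ _)
      rw [e, integral_ind (by norm_num)]
      norm_num
    rw [this, ENNReal.ofReal_one]
  have h2 : ∫⁻ x : ℝ, ‖((|x| ^ α : ℝ) : ℂ) * chi x‖ₑ =
      ENNReal.ofReal (2 * (1 / 2) ^ (α + 1) / (α + 1)) := by
    rw [chi_eq]
    have e0 : (fun x : ℝ => ‖((|x| ^ α : ℝ) : ℂ) * ((ind (1 / 2) x : ℝ) : ℂ)‖ₑ) =
        fun x : ℝ => ‖(((|x| ^ α * ind (1 / 2) x : ℝ)) : ℂ)‖ₑ := by
      funext x
      push_cast
      rfl
    rw [e0, lint_real _ (pow_ind_integrable hα)]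
    congr 1
    have e : (fun x : ℝ => |(|x| ^ α * ind (1 / 2) x)|) = fun x => |x| ^ α * ind (1 / 2) x := by
      funext x
      apply abs_of_nonneg
      have := ind_nonneg (1 / 2) x
      positivity
    rw [e, integral_pow_ind (by norm_num) hα]
  have h3 : ENNReal.ofReal (1 / Real.pi) ≤
      eLpNorm (fun ξ : ℝ => (ξ : ℂ) * 𝓕 chi ξ) ∞ volume := by
    rw [eLpNorm_exponent_top]
    set M := eLpNormEssSup (fun ξ : ℝ => (ξ : ℂ) * 𝓕 chi ξ) volume with hM
    have hae : ∀ᵐ ξ : ℝ, ‖(ξ : ℂ) * 𝓕 chi ξ‖ₑ ≤ M := enorm_ae_le_eLpNormEssSup _ _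
    have hdense := Measure.dense_of_ae hae
    have hcont : Continuous fun ξ : ℝ => ‖(ξ : ℂ) * 𝓕 chi ξ‖ₑ := by
      have hc : Continuous (𝓕 chi) := by
        rw [chi_eq]
        exact continuous_fourier hint
      exact (Complex.continuous_ofReal.mul hc).enorm
    have hclosed : IsClosed {ξ : ℝ | ‖(ξ : ℂ) * 𝓕 chi ξ‖ₑ ≤ M} :=
      isClosed_le hcont continuous_const
    have hall : {ξ : ℝ | ‖(ξ : ℂ) * 𝓕 chi ξ‖ₑ ≤ M} = univ := by
      rw [← hclosed.closure_eq]
      exact hdense.closure_eq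
    have hhalf : ‖((1 / 2 : ℝ) : ℂ) * 𝓕 chi (1 / 2)‖ₑ ≤ M := by
      have : (1 / 2 : ℝ) ∈ {ξ : ℝ | ‖(ξ : ℂ) * 𝓕 chi ξ‖ₑ ≤ M} := by rw [hall]; trivial
      exact this
    rw [chi_eq, fourier_ind (by norm_num)] at hhalf
    have e1 : Real.sin (2 * Real.pi * (1 / 2) * (1 / 2)) = 1 := by
      have : 2 * Real.pi * (1 / 2) * (1 / 2) = Real.pi / 2 := by ring
      rw [this, Real.sin_pi_div_two]
    rw [e1, ← ofReal_norm, Complex.norm_real, Real.norm_of_nonneg (by positivity)] at hhalf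
    exact hhalf
  rw [h1, h2, ENNReal.one_rpow, div_one]
  gcongr

/-- **Theorem.** For every real `α > 0` there is a real-valued, even, integrable function `v`
with finitely many values, vanishing outside `[-1/2, 1/2]` and nowhere zero on `[-1/2, 1/2]`, with
`Φ_α(v) < Φ_α(χ)`, `χ` being the indicator function of `[-1/2, 1/2]`. -/
theorem result : ∀ α : ℝ, 0 < α → ∃ v : ℝ → ℝ, Integrable v ∧ (∀ x, v (-x) = v x) ∧
    (Set.range v).Finite ∧ (∀ x ∈ Icc (-1 / 2 : ℝ) (1 / 2), v x ≠ 0) ∧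
    (∀ x ∉ Icc (-1 / 2 : ℝ) (1 / 2), v x = 0) ∧
    Phi α (fun x => (v x : ℂ)) < Phi α chi := by
  intro α hα
  obtain ⟨ρ, hρ0, hρ1, hρ⟩ := exists_rho hα
  set h : ℝ := 1 / (2 * (1 + 16 * ρ)) with hh
  set δ : ℝ := ρ * h with hδdef
  have hh0 : 0 < h := by positivity
  have hδ : 0 < δ := by positivity
  have hsupp : h + 16 * δ = 1 / 2 := by
    rw [hδdef, hh]
    field_simp
  have h35 : 35 * δ ≤ h := by
    rw [hδdef]
    nlinarith
  have h16 : 16 * δ ≤ h := by linarith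
  have hLL := LL_nonneg hδ h16
  have hIcc : ∀ x : ℝ, x ∈ Icc (-1 / 2 : ℝ) (1 / 2) ↔ |x| ≤ h + 16 * δ := by
    intro x
    rw [hsupp, abs_le, mem_Icc]
    constructor
    · rintro ⟨a, b⟩; exact ⟨by linarith, b⟩
    · rintro ⟨a, b⟩; exact ⟨by linarith, b⟩
  have hucomb : u h δ = comb LL h δ := funext fun x => u_eq_comb h δ x
  have hint : Integrable (u h δ) := by rw [hucomb]; exact comb_integrable LL h δ
  refine ⟨u h δ, hint, u_even h δ, ?_, ?_, ?_, ?_⟩
  · -- finitely many values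
    have hf : ∀ l : List (ℝ × ℝ × ℝ), (Set.range (comb l h δ)).Finite := by
      intro l
      induction l with
      | nil =>
        apply (Set.finite_singleton (0 : ℝ)).subset
        rintro y ⟨x, rfl⟩
        exact comb_nil h δ x
      | cons p l ih =>
        have hfin : (Set.range fun x => p.1 * ind (p.2.1 * h + p.2.2 * δ) x).Finite := by
          apply (Set.toFinite ({0, p.1} : Set ℝ)).subset
          rintro y ⟨x, rfl⟩
          simp only
          unfold ind
          split_ifs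
          · right; simp
          · left; simp
        apply (hfin.image2 (fun a b => a + b) ih).subset
        rintro y ⟨x, rfl⟩
        exact ⟨_, ⟨x, rfl⟩, _, ⟨x, rfl⟩, (comb_cons p l h δ x).symm⟩
    rw [hucomb]
    exact hf LL
  · intro x hx
    exact u_ne_zero hδ h35 ((hIcc x).mp hx)
  · intro x hx
    apply u_zero hδ h35
    by_contra hcon
    push Not at hcon
    exact hx ((hIcc x).mpr hcon)
  · refine lt_of_lt_of_le ?_ (Phi_chi α hα)
    -- the three quantities
    have hA : ∫ x, |u h δ x| = 2 * h * (1 + (2 / 15) * ρ) := by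
      have e1 : (fun x => |u h δ x|) = fun x => u h δ x + (2 / 15) * ind δ x :=
        funext fun x => abs_u hδ h35
      rw [e1, integral_add hint ((ind_integrable _).const_mul _), integral_const_mul,
        integral_ind hδ.le, hucomb, integral_comb LL h δ hLL]
      unfold LL
      simp only [List.map_cons, List.map_nil, List.sum_cons, List.sum_nil]
      rw [hδdef]
      ring
    have hscale : ∀ l : List (ℝ × ℝ × ℝ), (∀ p ∈ l, 0 ≤ p.2.1 * h + p.2.2 * δ) →
        (l.map fun p => p.1 * (p.2.1 * h + p.2.2 * δ) ^ (α + 1)).sum =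
        h ^ (α + 1) * Sl α l ρ := by
      intro l hl
      induction l with
      | nil => simp [Sl]
      | cons p l ih =>
        have e1 : p.2.1 * h + p.2.2 * δ = h * (p.2.1 + p.2.2 * ρ) := by
          rw [hδdef]; ring
        have hnn : 0 ≤ p.2.1 + p.2.2 * ρ := by
          have h0 := hl p (by simp)
          rw [e1] at h0
          exact nonneg_of_mul_nonneg_right h0 hh0
        simp only [List.map_cons, List.sum_cons]
        rw [ih (fun q hq => hl q (by simp [hq])), e1, Real.mul_rpow hh0.le hnn]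
        simp only [Sl, List.map_cons, List.sum_cons]
        ring
    have hB : ∫ x, |x| ^ α * |u h δ x| =
        2 * h ^ (α + 1) / (α + 1) * (Sl α LL ρ + (2 / 15) * ρ ^ (α + 1)) := by
      have e1 : (fun x => |x| ^ α * |u h δ x|) =
          fun x => |x| ^ α * comb LL h δ x + (2 / 15) * (|x| ^ α * ind δ x) := by
        funext x
        rw [abs_u hδ h35, u_eq_comb]
        ring
      rw [e1, integral_add (comb_pow_integrable hα LL h δ)
        ((pow_ind_integrable hα).const_mul _), integral_const_mul,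
        integral_pow_ind hδ.le hα, integral_pow_comb hα LL h δ hLL, hscale LL hLL]
      have e2 : δ ^ (α + 1) = ρ ^ (α + 1) * h ^ (α + 1) := by
        rw [hδdef, Real.mul_rpow hρ0.le hh0.le]
      rw [e2]
      ring
    have hM : eLpNorm (fun ξ : ℝ => (ξ : ℂ) * 𝓕 (fun x => (u h δ x : ℂ)) ξ) ∞ volume ≤
        ENNReal.ofReal (1 / Real.pi) := by
      rw [eLpNorm_exponent_top]
      apply eLpNormEssSup_le_of_ae_bound
      apply Filter.Eventually.of_forall
      intro ξ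
      rw [hucomb, fourier_comb LL h δ hLL, Complex.norm_real, Real.norm_eq_abs, abs_div,
        abs_of_pos Real.pi_pos]
      gcongr
      exact psi_bound h δ ξ
    have hl1 : ∫⁻ x : ℝ, ‖(u h δ x : ℂ)‖ₑ = ENNReal.ofReal (2 * h * (1 + (2 / 15) * ρ)) := by
      rw [lint_real _ hint, hA]
    have hl2 : ∫⁻ x : ℝ, ‖((|x| ^ α : ℝ) : ℂ) * (u h δ x : ℂ)‖ₑ =
        ENNReal.ofReal (2 * h ^ (α + 1) / (α + 1) * (Sl α LL ρ + (2 / 15) * ρ ^ (α + 1))) := by
      have e0 : (fun x : ℝ => ‖((|x| ^ α : ℝ) : ℂ) * ((u h δ x : ℝ) : ℂ)‖ₑ) =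
          fun x : ℝ => ‖(((|x| ^ α * u h δ x : ℝ)) : ℂ)‖ₑ := by
        funext x
        push_cast
        rfl
      rw [e0, lint_real]
      · rw [← hB]
        congr 2
        funext x
        rw [abs_mul, abs_of_nonneg (show 0 ≤ |x| ^ α by positivity)]
      · rw [hucomb]
        exact comb_pow_integrable hα LL h δ
    unfold Phi
    rw [hl1, hl2]
    set a : ℝ := 2 * h * (1 + (2 / 15) * ρ) with ha
    set B : ℝ := 2 * h ^ (α + 1) / (α + 1) * (Sl α LL ρ + (2 / 15) * ρ ^ (α + 1)) with hBdef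
    have ha0 : 0 < a := by positivity
    have hcomp : B < 2 * (1 / 2) ^ (α + 1) / (α + 1) * a ^ (α + 1) := by
      have e1 : a ^ (α + 1) = 2 ^ (α + 1) * (h ^ (α + 1) * (1 + (2 / 15) * ρ) ^ (α + 1)) := by
        rw [ha, mul_assoc, Real.mul_rpow (by norm_num) (by positivity),
          Real.mul_rpow hh0.le (by positivity)]
      have e2 : (1 / 2 : ℝ) ^ (α + 1) * 2 ^ (α + 1) = 1 := by
        rw [← Real.mul_rpow (by norm_num) (by norm_num)]
        norm_num
      have e3 : 2 * (1 / 2) ^ (α + 1) / (α + 1) * a ^ (α + 1) =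
          2 * h ^ (α + 1) / (α + 1) * (1 + (2 / 15) * ρ) ^ (α + 1) := by
        rw [e1]
        calc 2 * (1 / 2) ^ (α + 1) / (α + 1) *
              (2 ^ (α + 1) * (h ^ (α + 1) * (1 + (2 / 15) * ρ) ^ (α + 1)))
            = ((1 / 2 : ℝ) ^ (α + 1) * 2 ^ (α + 1)) *
              (2 * h ^ (α + 1) / (α + 1) * (1 + (2 / 15) * ρ) ^ (α + 1)) := by ring
          _ = _ := by rw [e2, one_mul]
      rw [e3, hBdef]
      apply mul_lt_mul_of_pos_left hρ
      positivity
    have hden : ENNReal.ofReal a ^ (α + 1) ≠ 0 := by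
      rw [ENNReal.ofReal_rpow_of_pos ha0]
      exact (ENNReal.ofReal_pos.mpr (by positivity)).ne'
    have hden2 : ENNReal.ofReal a ^ (α + 1) ≠ ∞ := by
      rw [ENNReal.ofReal_rpow_of_pos ha0]
      exact ENNReal.ofReal_ne_top
    rw [ENNReal.div_lt_iff (Or.inl hden) (Or.inl hden2)]
    have hpi : ENNReal.ofReal (1 / Real.pi) ^ α ≠ 0 := by
      rw [ENNReal.ofReal_rpow_of_pos (by positivity)]
      exact (ENNReal.ofReal_pos.mpr (by positivity)).ne'
    have hpi2 : ENNReal.ofReal (1 / Real.pi) ^ α ≠ ∞ := by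
      rw [ENNReal.ofReal_rpow_of_pos (by positivity)]
      exact ENNReal.ofReal_ne_top
    calc (eLpNorm (fun ξ : ℝ => (ξ : ℂ) * 𝓕 (fun x => (u h δ x : ℂ)) ξ) ∞ volume) ^ α *
          ENNReal.ofReal B
        ≤ ENNReal.ofReal (1 / Real.pi) ^ α * ENNReal.ofReal B := by gcongr
      _ < ENNReal.ofReal (1 / Real.pi) ^ α *
          (ENNReal.ofReal (2 * (1 / 2) ^ (α + 1) / (α + 1)) * ENNReal.ofReal a ^ (α + 1)) := by
          rw [ENNReal.mul_lt_mul_iff_right hpi hpi2, ENNReal.ofReal_rpow_of_pos ha0,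
            ← ENNReal.ofReal_mul (by positivity)]
          exact ENNReal.ofReal_lt_ofReal_iff (by positivity) |>.mpr hcomp
      _ = ENNReal.ofReal (1 / Real.pi) ^ α *
          ENNReal.ofReal (2 * (1 / 2) ^ (α + 1) / (α + 1)) * ENNReal.ofReal a ^ (α + 1) := by
          rw [mul_assoc]

end Pool.Agent.Results.MP_d6da6d_an.StepBeatsIndicator
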